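import Mathlib
import Pool.Agent.U37.LC.Stm2

/-!
Project LC, job Den: the symbol is bounded below by `c * rho`.
-/

set_option autoImplicit false

open MeasureTheory Filter Topology Complex

namespace Pool.Agent.U34.LC

open Pool.Agent.U37.LC

/-- the symbol -/
noncomputable def sy (θ : ℝ) (z κ : ℂ) (q : ℤ × ℝ) : ℂ :=
  (θ : ℂ) ^ 2 * (κ + q.1) ^ 2 + 4 * Real.pi ^ 2 * q.2 ^ 2 - z

lemma sy_cont (θ : ℝ) (z κ : ℂ) : Continuous (sy θ z κ) := by
  unfold sy
  have h1 : Continuous fun q : ℤ × ℝ => ((q.1 : ℤ) : ℂ) :=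
    (continuous_of_discreteTopology (f := fun n : ℤ => (n : ℂ))).comp continuous_fst
  have h2 : Continuous fun q : ℤ × ℝ => ((q.2 : ℝ) : ℂ) :=
    Complex.continuous_ofReal.comp continuous_snd
  fun_prop

lemma rho_cont : Continuous fun q : ℤ × ℝ => rho q.1 q.2 := by
  unfold rho
  have h1 : Continuous fun q : ℤ × ℝ => ((q.1 : ℤ) : ℝ) :=
    (continuous_of_discreteTopology (f := fun n : ℤ => (n : ℝ))).comp continuous_fst
  have h2 : Continuous fun q : ℤ × ℝ => (q.2 : ℝ) := continuous_snd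
  fun_prop

lemma rho_pos (n : ℤ) (η : ℝ) : 0 < rho n η := by
  unfold rho
  positivity

/-- growth: the real part of the symbol -/
lemma sy_re (θ : ℝ) (z κ : ℂ) (n : ℤ) (η : ℝ) :
    (sy θ z κ (n, η)).re =
      θ ^ 2 * ((κ.re + n) ^ 2 - κ.im ^ 2) + 4 * Real.pi ^ 2 * η ^ 2 - z.re := by
  unfold sy
  simp [pow_two, Complex.add_re, Complex.mul_re, Complex.sub_re]

lemma growth (θ : ℝ) (hθ : 0 < θ) (z κ : ℂ) (n : ℤ) (η : ℝ) :
    min (θ ^ 2 / 2) (4 * Real.pi ^ 2) * rho n η -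
      (θ ^ 2 * (κ.re ^ 2 + κ.im ^ 2) + |z.re| + θ ^ 2) ≤ ‖sy θ z κ (n, η)‖ := by
  refine le_trans ?_ (Complex.re_le_norm _)
  rw [sy_re]
  unfold rho
  set m := min (θ ^ 2 / 2) (4 * Real.pi ^ 2) with hm
  have h1 : m ≤ θ ^ 2 / 2 := min_le_left _ _
  have h2 : m ≤ 4 * Real.pi ^ 2 := min_le_right _ _
  have h3 : (n : ℝ) ^ 2 / 2 ≤ (κ.re + n) ^ 2 + κ.re ^ 2 := by
    nlinarith [sq_nonneg ((n : ℝ) + 2 * κ.re)]
  have h4 : m * (n : ℝ) ^ 2 ≤ θ ^ 2 * ((κ.re + n) ^ 2 + κ.re ^ 2) := by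
    calc m * (n : ℝ) ^ 2 ≤ θ ^ 2 / 2 * (n : ℝ) ^ 2 :=
          mul_le_mul_of_nonneg_right h1 (sq_nonneg _)
      _ = θ ^ 2 * ((n : ℝ) ^ 2 / 2) := by ring
      _ ≤ _ := mul_le_mul_of_nonneg_left h3 (sq_nonneg _)
  have h5 : m * η ^ 2 ≤ 4 * Real.pi ^ 2 * η ^ 2 := mul_le_mul_of_nonneg_right h2 (sq_nonneg _)
  have h6 := le_abs_self z.re
  have h7 : m ≤ θ ^ 2 := by nlinarith [sq_nonneg θ]
  nlinarith

theorem jobDen : JobDen := by
  intro θ hθ A z κ hne
  set m := min (θ ^ 2 / 2) (4 * Real.pi ^ 2) with hm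
  have hm0 : 0 < m := lt_min (by positivity) (by positivity)
  set K := θ ^ 2 * (κ.re ^ 2 + κ.im ^ 2) + |z.re| + θ ^ 2 with hK
  have hK0 : 0 < K := by positivity
  -- the compact set where rho is small
  set R := 2 * K / m with hR
  have hR0 : 0 < R := by positivity
  set S : Set (ℤ × ℝ) := {q | q.1 ∈ A ∧ rho q.1 q.2 ≤ R} with hS
  have hScl : IsClosed S := by
    refine IsClosed.inter ?_ (isClosed_le rho_cont continuous_const)
    exact (isClosed_discrete A).preimage continuous_fst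
  have hSb : S ⊆ Metric.closedBall (0 : ℤ × ℝ) R := by
    rintro ⟨n, η⟩ ⟨-, h⟩
    unfold rho at h
    simp only at h
    rw [mem_closedBall_zero_iff, Prod.norm_def]
    refine max_le ?_ ?_
    · simp only [Int.norm_eq_abs]
      have h1 : |(n : ℝ)| ≤ 1 + (n : ℝ) ^ 2 := by
        rw [← sq_abs]
        nlinarith [sq_nonneg (|(n : ℝ)| - 1)]
      nlinarith [sq_nonneg η]
    · simp only [Real.norm_eq_abs]
      have h1 : |η| ≤ 1 + η ^ 2 := by
        rw [← sq_abs]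
        nlinarith [sq_nonneg (|η| - 1)]
      nlinarith [sq_nonneg (n : ℝ)]
  have hSc : IsCompact S := (isCompact_closedBall (0 : ℤ × ℝ) R).of_isClosed_subset hScl hSb
  have hbig : ∀ (n : ℤ) (η : ℝ), R ≤ rho n η → m / 2 * rho n η ≤ ‖sy θ z κ (n, η)‖ := by
    intro n η h
    have h1 := growth θ hθ z κ n η
    rw [← hm, ← hK] at h1
    have h2 : K ≤ m / 2 * rho n η := by
      calc K = m / 2 * R := by rw [hR]; field_simp
        _ ≤ _ := mul_le_mul_of_nonneg_left h (by positivity)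
    linarith
  rcases S.eq_empty_or_nonempty with he | hne'
  · refine ⟨m / 2, by positivity, fun n hn η => ?_⟩
    refine hbig n η ?_
    by_contra hlt
    have : ((n, η) : ℤ × ℝ) ∈ S := ⟨hn, (not_le.1 hlt).le⟩
    rw [he] at this
    exact this
  · obtain ⟨q₀, hq₀, hmin⟩ := hSc.exists_isMinOn hne'
      (f := fun q : ℤ × ℝ => ‖sy θ z κ q‖ / rho q.1 q.2)
      (((sy_cont θ z κ).norm.div rho_cont fun q => (rho_pos _ _).ne').continuousOn)
    set c := ‖sy θ z κ q₀‖ / rho q₀.1 q₀.2 with hc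
    have hc0 : 0 < c := by
      refine div_pos (norm_pos_iff.2 ?_) (rho_pos _ _)
      exact hne q₀.1 hq₀.1 q₀.2
    refine ⟨min c (m / 2), lt_min hc0 (by positivity), fun n hn η => ?_⟩
    rcases le_total (rho n η) R with h | h
    · have h1 : c ≤ ‖sy θ z κ (n, η)‖ / rho n η := hmin (show ((n, η) : ℤ × ℝ) ∈ S from ⟨hn, h⟩)
      have h2 := (le_div_iff₀ (rho_pos n η)).1 h1
      exact (mul_le_mul_of_nonneg_right (min_le_left _ _) (rho_pos n η).le).trans h2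
    · exact (mul_le_mul_of_nonneg_right (min_le_right _ _) (rho_pos n η).le).trans (hbig n η h)

end Pool.Agent.U34.LC
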